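import Pool.Agent.Run7.h568.DG.CIface

/-!
# Closed surfaces: turns around a puncture and the crossing of the curve
-/

open Real Matrix

noncomputable section

namespace Run7.h55.DG

open Run7.h568.DG

lemma ent (A B : SL) (i j : Fin 2) :
    (A * B).1 i j = A.1 i 0 * B.1 0 j + A.1 i 1 * B.1 1 j := by
  rw [Matrix.SpecialLinearGroup.coe_mul, Matrix.mul_apply, Fin.sum_univ_two]

lemma stepf_ent (s : ℝ) : (step false s).1 0 0 = exp (-s / 2) ∧ (step false s).1 0 1 = 0 ∧
    (step false s).1 1 0 = exp (-s / 2) ∧ (step false s).1 1 1 = exp (s / 2) := by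
  have hU : (U false).1 = !![1, 0; 1, 1] := rfl
  have hD : (Del s).1 = !![exp (-s / 2), 0; 0, exp (s / 2)] := rfl
  unfold step
  refine ⟨?_, ?_, ?_, ?_⟩ <;> rw [ent, hU, hD] <;> simp

variable {D : Type} [Fintype D] [DecidableEq D] {T : Tri D}

lemma turns_succ (x : D → ℝ) (hx : ∀ d, x (T.io d) = x d) (d : D) (j : ℕ) :
    Portal.turns (T := T) x d (j + 1) =
      step false (x (T.rho d)) * Portal.turns (T := T) x (T.rho d) j := by
  unfold Portal.turns
  rw [List.replicate_succ]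
  have h1 : T.hol x (false :: List.replicate j false) d =
      step false (x (T.turn false d)) * T.hol x (List.replicate j false) (T.nxt false d) := rfl
  have h2 : T.turn false d = T.sg (T.sg d) := rfl
  have h3 : T.nxt false d = T.rho d := rfl
  have h4 : x (T.rho d) = x (T.sg (T.sg d)) := hx _
  rw [h1, h2, h3, h4]

lemma turns_facts (x : D → ℝ) (hx : ∀ d, x (T.io d) = x d) (j : ℕ) : ∀ d,
    (Portal.turns (T := T) x d j).1 0 1 = 0 ∧
    (Portal.turns (T := T) x d j).1 0 0 =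
      exp (-(∑ i ∈ Finset.range j, x (T.rho^[i + 1] d)) / 2) ∧
    (Portal.turns (T := T) x d j).1 1 1 =
      exp ((∑ i ∈ Finset.range j, x (T.rho^[i + 1] d)) / 2) ∧
    0 ≤ (Portal.turns (T := T) x d j).1 1 0 ∧
    (0 < j → 0 < (Portal.turns (T := T) x d j).1 1 0) := by
  induction j with
  | zero =>
    intro d
    have h1 : Portal.turns (T := T) x d 0 = 1 := rfl
    rw [h1]
    refine ⟨by simp, by simp, by simp, by simp, fun h => absurd h (lt_irrefl 0)⟩
  | succ j ih =>
    intro d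
    obtain ⟨a1, a2, a3, a4, -⟩ := ih (T.rho d)
    obtain ⟨s1, s2, s3, s4⟩ := stepf_ent (x (T.rho d))
    have hsum : ∑ i ∈ Finset.range (j + 1), x (T.rho^[i + 1] d) =
        (∑ i ∈ Finset.range j, x (T.rho^[i + 1] (T.rho d))) + x (T.rho d) := by
      rw [Finset.sum_range_succ']
      rfl
    rw [turns_succ x hx d j, hsum]
    have e10 : (step false (x (T.rho d)) * Portal.turns (T := T) x (T.rho d) j).1 1 0 =
        exp (-(x (T.rho d)) / 2) * exp (-(∑ i ∈ Finset.range j, x (T.rho^[i + 1] (T.rho d))) / 2)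
          + exp (x (T.rho d) / 2) * (Portal.turns (T := T) x (T.rho d) j).1 1 0 := by
      rw [ent, s3, s4, a2]
    have hpos : 0 < (step false (x (T.rho d)) * Portal.turns (T := T) x (T.rho d) j).1 1 0 := by
      rw [e10]
      have p1 := exp_pos (-(x (T.rho d)) / 2)
      have p2 := exp_pos (-(∑ i ∈ Finset.range j, x (T.rho^[i + 1] (T.rho d))) / 2)
      have p3 := exp_pos (x (T.rho d) / 2)
      have p4 := mul_pos p1 p2
      have p5 := mul_nonneg p3.le a4
      linarith
    refine ⟨?_, ?_, ?_, hpos.le, fun _ => hpos⟩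
    · rw [ent, s1, s2, a1]
      ring
    · rw [ent, s1, s2, a2, zero_mul, add_zero, ← exp_add]
      congr 1
      ring
    · rw [ent, s3, s4, a1, a3, mul_zero, zero_add, ← exp_add]
      congr 1
      ring

lemma rho_inj : Function.Injective T.rho := fun _ _ h =>
  T.sg.injective (T.sg.injective (T.io.injective h))

lemma per_pos (d : D) : 0 < Function.minimalPeriod T.rho d :=
  Function.minimalPeriod_pos_of_mem_periodicPts (rho_inj (T := T).mem_periodicPts d)

lemma sum_shift (x : D → ℝ) (d : D) :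
    ∑ i ∈ Finset.range (Function.minimalPeriod T.rho d), x (T.rho^[i + 1] d) = T.cyc x d := by
  unfold Tri.cyc
  have h1 := Finset.sum_range_succ (fun i => x (T.rho^[i] d)) (Function.minimalPeriod T.rho d)
  have h2 := Finset.sum_range_succ' (fun i => x (T.rho^[i] d)) (Function.minimalPeriod T.rho d)
  have h3 : T.rho^[Function.minimalPeriod T.rho d] d = d := Function.iterate_minimalPeriod
  simp only [h3] at h1
  have h4 : T.rho^[0] d = d := rfl
  simp only [h4] at h2
  linarith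

lemma rot_facts (x : D → ℝ) (hx : ∀ d, x (T.io d) = x d) (d : D) :
    (Portal.rot (T := T) x d).1 0 1 = 0 ∧
    (Portal.rot (T := T) x d).1 0 0 = exp (-(T.cyc x d) / 2) ∧
    (Portal.rot (T := T) x d).1 1 1 = exp (T.cyc x d / 2) ∧
    0 < (Portal.rot (T := T) x d).1 1 0 := by
  obtain ⟨a1, a2, a3, -, a5⟩ := turns_facts (T := T) x hx (Function.minimalPeriod T.rho d) d
  rw [sum_shift] at a2 a3
  exact ⟨a1, a2, a3, a5 (per_pos d)⟩

/-- the lower triangular matrices `rot u ^ n * J` -/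
def MM (r r' s z : ℝ) : SL := ⟨!![exp (z / 2), 0;
    (r * exp (z / 2) + r' * exp (-z / 2)) / s, exp (-z / 2)], by
  rw [Matrix.det_fin_two]; simp [← exp_add]; try ring_nf; try simp⟩

lemma MM_step {g : SL} {r r' l z : ℝ} (hl : 0 < l) (g00 : g.1 0 0 = exp (l / 2))
    (g01 : g.1 0 1 = 0) (g10 : g.1 1 0 = r) (g11 : g.1 1 1 = exp (-l / 2)) :
    g * MM r r' (2 * sinh (l / 2)) z = MM r r' (2 * sinh (l / 2)) (l + z) := by
  have hs : 0 < 2 * sinh (l / 2) := by
    have := Real.sinh_pos_iff.2 (show 0 < l / 2 by linarith)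
    linarith
  have hsd : 2 * sinh (l / 2) = exp (l / 2) - exp (-l / 2) := by
    rw [Real.sinh_eq]
    have : -(l / 2) = -l / 2 := by ring
    rw [this]
    ring
  have m00 : (MM r r' (2 * sinh (l / 2)) z).1 0 0 = exp (z / 2) := rfl
  have m01 : (MM r r' (2 * sinh (l / 2)) z).1 0 1 = 0 := rfl
  have m10 : (MM r r' (2 * sinh (l / 2)) z).1 1 0 =
    (r * exp (z / 2) + r' * exp (-z / 2)) / (2 * sinh (l / 2)) := rfl
  have m11 : (MM r r' (2 * sinh (l / 2)) z).1 1 1 = exp (-z / 2) := rfl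
  have e1 : exp (l / 2) * exp (z / 2) = exp ((l + z) / 2) := by
    rw [← exp_add]
    congr 1
    ring
  have e2 : exp (-l / 2) * exp (-z / 2) = exp (-(l + z) / 2) := by
    rw [← exp_add]
    congr 1
    ring
  apply Subtype.ext
  ext i j
  fin_cases i <;> fin_cases j
  · change (g * MM r r' (2 * sinh (l / 2)) z).1 0 0 = exp ((l + z) / 2)
    rw [ent, g00, g01, m00, zero_mul, add_zero, e1]
  · change (g * MM r r' (2 * sinh (l / 2)) z).1 0 1 = 0
    rw [ent, g01, m01, mul_zero, zero_mul, add_zero]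
  · change (g * MM r r' (2 * sinh (l / 2)) z).1 1 0 =
      (r * exp ((l + z) / 2) + r' * exp (-(l + z) / 2)) / (2 * sinh (l / 2))
    rw [ent, g10, g11, m00, m10, eq_div_iff hs.ne', add_mul, mul_assoc (exp (-l / 2)),
      div_mul_cancel₀ _ hs.ne', ← e1, ← e2, hsd]
    ring
  · change (g * MM r r' (2 * sinh (l / 2)) z).1 1 1 = exp (-(l + z) / 2)
    rw [ent, g11, m01, m11, mul_zero, zero_add, e2]

theorem cj : C_J := by
  intro D _ _ T P p hp
  obtain ⟨hx, hl, hcu, -⟩ := hp
  obtain ⟨u1, u2, u3, u4⟩ := rot_facts (T := T) p.1 hx P.u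
  obtain ⟨v1, v2, v3, v4⟩ := rot_facts (T := T) p.1 hx P.v
  have hs : 0 < 2 * sinh (T.cyc p.1 P.v / 2) := by
    have := Real.sinh_pos_iff.2 (show 0 < T.cyc p.1 P.v / 2 by linarith)
    linarith
  have hsd : 2 * sinh (T.cyc p.1 P.v / 2) =
      exp (T.cyc p.1 P.v / 2) - exp (-(T.cyc p.1 P.v) / 2) := by
    rw [Real.sinh_eq]
    have : -(T.cyc p.1 P.v / 2) = -(T.cyc p.1 P.v) / 2 := by ring
    rw [this]
    ring
  have hJ : P.J p = MM ((Portal.rot (T := T) p.1 P.u).1 1 0) ((Portal.rot (T := T) p.1 P.v).1 1 0)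
      (2 * sinh (T.cyc p.1 P.v / 2)) p.2 := rfl
  rw [hcu, neg_neg] at u2
  rw [hcu] at u3
  have J00 : (P.J p).1 0 0 = exp (p.2 / 2) := rfl
  have J01 : (P.J p).1 0 1 = 0 := rfl
  have J10 : (P.J p).1 1 0 = ((Portal.rot (T := T) p.1 P.u).1 1 0 * exp (p.2 / 2) +
        (Portal.rot (T := T) p.1 P.v).1 1 0 * exp (-p.2 / 2)) /
          (2 * sinh (T.cyc p.1 P.v / 2)) := rfl
  have J11 : (P.J p).1 1 1 = exp (-p.2 / 2) := rfl
  have hstep : ∀ z : ℝ, Portal.rot (T := T) p.1 P.u *
      MM ((Portal.rot (T := T) p.1 P.u).1 1 0) ((Portal.rot (T := T) p.1 P.v).1 1 0)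
        (2 * sinh (T.cyc p.1 P.v / 2)) z =
      MM ((Portal.rot (T := T) p.1 P.u).1 1 0) ((Portal.rot (T := T) p.1 P.v).1 1 0)
        (2 * sinh (T.cyc p.1 P.v / 2)) (T.cyc p.1 P.v + z) := fun z => MM_step hl u2 u1 rfl u3
  refine ⟨fun d j => ?_, fun d => ?_, ?_, ?_, ?_⟩
  · obtain ⟨a1, a2, a3, a4, a5⟩ := turns_facts (T := T) p.1 hx j d
    exact ⟨a1, by rw [a2]; exact exp_pos _, by rw [a3]; exact exp_pos _, a4, a5⟩
  · obtain ⟨-, a2, a3, a4⟩ := rot_facts (T := T) p.1 hx d
    exact ⟨a2, a3, a4⟩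
  · rw [eq_mul_inv_iff_mul_eq]
    apply Subtype.ext
    ext i j
    have q1 : exp (T.cyc p.1 P.v / 2) * exp (-(T.cyc p.1 P.v) / 2) = 1 := by
      rw [← exp_add]
      have : T.cyc p.1 P.v / 2 + -(T.cyc p.1 P.v) / 2 = 0 := by ring
      rw [this, exp_zero]
    have hj : (P.J p).1 1 0 * (exp (T.cyc p.1 P.v / 2) - exp (-(T.cyc p.1 P.v) / 2)) =
        (Portal.rot (T := T) p.1 P.u).1 1 0 * exp (p.2 / 2) +
        (Portal.rot (T := T) p.1 P.v).1 1 0 * exp (-p.2 / 2) := by
      rw [← hsd, J10, div_mul_cancel₀ _ hs.ne']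
    fin_cases i <;> fin_cases j
    · change (Portal.rot (T := T) p.1 P.u * P.J p * Portal.rot (T := T) p.1 P.v).1 0 0 =
        (P.J p).1 0 0
      rw [ent, ent, ent, u1, u2, v2, J00, J01]
      linear_combination exp (p.2 / 2) * q1
    · change (Portal.rot (T := T) p.1 P.u * P.J p * Portal.rot (T := T) p.1 P.v).1 0 1 =
        (P.J p).1 0 1
      rw [ent, ent, ent, u1, v1, J01]
      ring
    · change (Portal.rot (T := T) p.1 P.u * P.J p * Portal.rot (T := T) p.1 P.v).1 1 0 =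
        (P.J p).1 1 0
      rw [ent, ent, ent, u3, v2, J00, J01, J11]
      linear_combination exp (-(T.cyc p.1 P.v) / 2) * hj * (-1) + (P.J p).1 1 0 * q1
    · change (Portal.rot (T := T) p.1 P.u * P.J p * Portal.rot (T := T) p.1 P.v).1 1 1 =
        (P.J p).1 1 1
      rw [ent, ent, ent, u3, v1, v3, J01, J11]
      linear_combination exp (-p.2 / 2) * q1
  · rw [J10]
    apply div_pos _ hs
    have p1 := mul_pos u4 (exp_pos (p.2 / 2))
    have p2 := mul_pos v4 (exp_pos (-p.2 / 2))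
    linarith
  · have key : ∀ n : ℤ, Portal.rot (T := T) p.1 P.u ^ n * P.J p =
        MM ((Portal.rot (T := T) p.1 P.u).1 1 0) ((Portal.rot (T := T) p.1 P.v).1 1 0)
          (2 * sinh (T.cyc p.1 P.v / 2)) (n * T.cyc p.1 P.v + p.2) := by
      intro n
      induction n with
      | zero =>
        rw [zpow_zero, one_mul, hJ]
        congr 1
        simp
      | succ n ih =>
        rw [add_comm, _root_.zpow_one_add, mul_assoc, ih, hstep]
        congr 1
        push_cast
        ring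
      | pred n ih =>
        have h1 : Portal.rot (T := T) p.1 P.u ^ (-(n : ℤ) - 1) =
            (Portal.rot (T := T) p.1 P.u)⁻¹ * Portal.rot (T := T) p.1 P.u ^ (-(n : ℤ)) := by
          rw [← _root_.zpow_neg_one, ← _root_.zpow_add]
          congr 1
          ring
        rw [h1, mul_assoc, ih, inv_mul_eq_iff_eq_mul, hstep]
        congr 1
        push_cast
        ring
    intro n z
    rw [key n]
    rfl

end Run7.h55.DG
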