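import Pool.Agent.Run7.h568.DG.CIface

/-!
# Closed surfaces: combinatorics of strands
-/

open Real Matrix

noncomputable section

namespace Run7.h55.DG

open Run7.h568.DG

variable {D : Type} [Fintype D] [DecidableEq D] {T : Tri D} (P : Portal T)

lemma ne_uv : P.u ≠ P.v := P.huv 0

lemma ne_u_iou : P.u ≠ T.io P.u := fun h => T.io_ne P.u h.symm

lemma ne_v_iov : P.v ≠ T.io P.v := fun h => T.io_ne P.v h.symm

lemma ne_u_iov : P.u ≠ T.io P.v := fun h => P.hne (by rw [h, T.io_io])

lemma ne_iou_iov : T.io P.u ≠ T.io P.v := fun h => ne_uv P (T.io.injective h)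

lemma io_eq {d e : D} (h : T.io d = e) : d = T.io e := by rw [← h, T.io_io]

omit [Fintype D] [DecidableEq D] in
lemma prod_eq {α β : Type} {a a' : α} {b b' : β} (h1 : a = a') (h2 : b = b') :
    (a, b) = (a', b') := by rw [h1, h2]

lemma num3 (c : D → ℕ) (d : D) : T.num c (T.sg (T.sg d)) = c (T.sg (T.sg d)) + c d := by
  unfold Tri.num
  rw [T.sg3]

lemma num1 (c : D → ℕ) (d : D) : T.num c d = c d + c (T.sg d) := rfl

lemma out_lt (c : D → ℕ) (w : D × ℕ) (h : w.2 < T.num c w.1) :
    (Portal.out (T := T) c w).2 < T.num c (Portal.out (T := T) c w).1 := by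
  obtain ⟨d, i⟩ := w
  simp only at h
  have h1 := num1 (T := T) c d
  have h2 := num3 (T := T) c d
  have h3 := num1 (T := T) c (T.sg d)
  unfold Portal.out
  by_cases hi : i < c d
  · simp only [hi, if_true]
    omega
  · simp only [hi, if_false]
    omega

lemma out_out (c : D → ℕ) (w : D × ℕ) (h : w.2 < T.num c w.1) :
    Portal.out (T := T) c (Portal.out (T := T) c w) = w := by
  obtain ⟨d, i⟩ := w
  simp only at h
  have h1 := num1 (T := T) c d
  have h2 := num3 (T := T) c d
  have h3 := num1 (T := T) c (T.sg d)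
  by_cases hi : i < c d
  · have e1 : Portal.out (T := T) c (d, i) =
        (T.sg (T.sg d), T.num c (T.sg (T.sg d)) - 1 - i) := if_pos hi
    rw [e1]
    have e2 : Portal.out (T := T) c (T.sg (T.sg d), T.num c (T.sg (T.sg d)) - 1 - i) =
        (T.sg (T.sg (T.sg d)), T.num c (T.sg (T.sg d)) - 1 -
          (T.num c (T.sg (T.sg d)) - 1 - i)) := if_neg (by simp only; omega)
    rw [e2]
    exact prod_eq (T.sg3 d) (by omega)
  · have e1 : Portal.out (T := T) c (d, i) = (T.sg d, T.num c d - 1 - i) := if_neg hi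
    rw [e1]
    have e2 : Portal.out (T := T) c (T.sg d, T.num c d - 1 - i) =
        (T.sg (T.sg (T.sg d)), T.num c (T.sg (T.sg (T.sg d))) - 1 - (T.num c d - 1 - i)) :=
      if_pos (by simp only; omega)
    rw [e2, T.sg3]
    exact prod_eq rfl (by omega)

lemma sbit_out (c : D → ℕ) (w : D × ℕ) (h : w.2 < T.num c w.1) :
    Tri.sbit c (Portal.out (T := T) c w) = !(Tri.sbit c w) := by
  obtain ⟨d, i⟩ := w
  simp only at h
  have h1 := num1 (T := T) c d
  have h2 := num3 (T := T) c d
  have h3 := num1 (T := T) c (T.sg d)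
  by_cases hi : i < c d
  · have e1 : Portal.out (T := T) c (d, i) =
        (T.sg (T.sg d), T.num c (T.sg (T.sg d)) - 1 - i) := if_pos hi
    rw [e1]
    unfold Tri.sbit
    have e3 : ¬ (c d ≤ i) := by omega
    have e4 : c (T.sg (T.sg d)) ≤ T.num c (T.sg (T.sg d)) - 1 - i := by omega
    simp only [e3, e4, decide_true, decide_false, Bool.not_false]
  · have e1 : Portal.out (T := T) c (d, i) = (T.sg d, T.num c d - 1 - i) := if_neg hi
    rw [e1]
    unfold Tri.sbit
    have e3 : c d ≤ i := by omega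
    have e4 : ¬ (c (T.sg d) ≤ T.num c d - 1 - i) := by omega
    simp only [e3, e4, decide_true, decide_false, Bool.not_true]

/-! ### the four cases of `cross` -/

lemma cross_iou_hi (c : D → ℕ) (a i : ℕ) (h : T.num c P.u ≤ i) :
    P.cross c a (T.io P.u, i) = (P.v, T.num c (T.io P.u) - 1 - i) := by
  unfold Portal.cross
  simp only [if_true, h]

lemma cross_iou_lo (c : D → ℕ) (a i : ℕ) (h : ¬ T.num c P.u ≤ i) :
    P.cross c a (T.io P.u, i) = (P.u, T.num c P.u - 1 - i) := by
  unfold Portal.cross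
  simp only [if_true, h, if_false]

lemma cross_v_lo (c : D → ℕ) (a i : ℕ) (h : i < a) :
    P.cross c a (P.v, i) = (T.io P.u, T.num c (T.io P.u) - 1 - i) := by
  unfold Portal.cross
  simp only [if_true, h, if_false, P.hne]

lemma cross_v_hi (c : D → ℕ) (a i : ℕ) (h : ¬ i < a) :
    P.cross c a (P.v, i) = (T.io P.v, T.num c P.v - 1 - i) := by
  unfold Portal.cross
  simp only [if_true, h, if_false, P.hne]

lemma cross_iov (c : D → ℕ) (a i : ℕ) :
    P.cross c a (T.io P.v, i) = (P.v, T.num c P.v - 1 - i) := by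
  unfold Portal.cross
  have h1 : T.io P.v ≠ T.io P.u := (ne_iou_iov P).symm
  have h2 : T.io P.v ≠ P.v := T.io_ne P.v
  simp only [if_true, if_false, h1, h2]

lemma cross_else (c : D → ℕ) (a i : ℕ) (d : D) (h1 : d ≠ T.io P.u) (h2 : d ≠ P.v)
    (h3 : d ≠ T.io P.v) :
    P.cross c a (d, i) = (T.io d, T.num c d - 1 - i) := by
  unfold Portal.cross
  simp only [if_false, h1, h2, h3]

lemma cross_aux (c : D → ℕ) (a : ℕ) (hc : P.Match c a) (w : D × ℕ) (h : w.2 < T.num c w.1) :
    (P.cross c a w).2 < T.num c (P.cross c a w).1 ∧ P.cross c a (P.cross c a w) = w := by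
  obtain ⟨d, i⟩ := w
  simp only at h
  obtain ⟨hn, hu, hv⟩ := hc
  by_cases h1 : d = T.io P.u
  · subst h1
    by_cases h2 : T.num c P.u ≤ i
    · rw [cross_iou_hi P c a i h2, cross_v_lo P c a _ (by omega)]
      exact ⟨by simp only; omega, prod_eq rfl (by omega)⟩
    · rw [cross_iou_lo P c a i h2, cross_else P c a _ P.u (ne_u_iou P) (ne_uv P) (ne_u_iov P)]
      exact ⟨by simp only; omega, prod_eq rfl (by omega)⟩
  by_cases h2 : d = P.v
  · subst h2
    by_cases h3 : i < a
    · rw [cross_v_lo P c a i h3, cross_iou_hi P c a _ (by omega)]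
      exact ⟨by simp only; omega, prod_eq rfl (by omega)⟩
    · rw [cross_v_hi P c a i h3, cross_iov]
      exact ⟨by simp only; omega, prod_eq rfl (by omega)⟩
  by_cases h3 : d = T.io P.v
  · subst h3
    rw [cross_iov, cross_v_hi P c a _ (by omega)]
    exact ⟨by simp only; omega, prod_eq rfl (by omega)⟩
  rw [cross_else P c a i d h1 h2 h3]
  by_cases h4 : d = P.u
  · subst h4
    rw [cross_iou_lo P c a _ (by omega)]
    exact ⟨by simp only; omega, prod_eq rfl (by omega)⟩
  have h5 : ¬ P.Special d := by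
    unfold Portal.Special
    push Not
    exact ⟨h4, h1, h2, h3⟩
  have h6 := hn d h5
  rw [cross_else P c a _ (T.io d) (fun h => h4 (T.io.injective h)) (fun h => h3 (io_eq h))
    (fun h => h2 (T.io.injective h)), T.io_io]
  exact ⟨by simp only; omega, prod_eq rfl (by omega)⟩

theorem comb : C_comb := by
  intro D _ _ T P c a hc w hw
  refine ⟨out_lt c w hw, out_out c w hw, sbit_out c w hw, (cross_aux P c a hc w hw).1,
    (cross_aux P c a hc w hw).2, ?_⟩
  exact (cross_aux P c a hc _ (out_lt c w hw)).1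

end Run7.h55.DG
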