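import Pool.Agent.Run7.h568.DG.CIface

/-!
# Closed surfaces: uniqueness of the gauge
-/

open Real Matrix

noncomputable section

namespace Run7.h55.DG

open Run7.h568.DG

lemma sq_exp_eq {a b x y : ℝ} (ha : a * a = 1) (hb : b * b = 1)
    (h : a * exp (x / 2) = b * exp (y / 2)) : x = y := by
  have h1 : (a * exp (x / 2)) * (a * exp (x / 2)) = (b * exp (y / 2)) * (b * exp (y / 2)) := by
    rw [h]
  have h2 : exp (x / 2) * exp (x / 2) = exp (y / 2) * exp (y / 2) := by
    have e1 : (a * exp (x / 2)) * (a * exp (x / 2)) = (a * a) * (exp (x / 2) * exp (x / 2)) := by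
      ring
    have e2 : (b * exp (y / 2)) * (b * exp (y / 2)) = (b * b) * (exp (y / 2) * exp (y / 2)) := by
      ring
    rw [e1, e2, ha, hb, one_mul, one_mul] at h1
    exact h1
  rw [← exp_add, ← exp_add] at h2
  have h3 := exp_injective h2
  linarith

theorem uniq : C_uniq := by
  intro D _ _ T P p q k hk hJ
  have hent : ∀ d, (k d).1 1 0 = 0 ∧ (k d).1 1 1 = (k (T.sg d)).1 0 0 ∧
      (k (T.sg d)).1 1 1 = (k d).1 0 0 := by
    intro d
    obtain ⟨h1, -, h3⟩ := hk d
    obtain ⟨-, -, h3'⟩ := hk (T.sg d)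
    have hm : (W * k (T.sg d)).1 = (k d * W).1 := by rw [h1]
    have m : (W.1 * (k (T.sg d)).1) = (k d).1 * W.1 := hm
    have w00 : W.1 0 0 = 1 := rfl
    have w01 : W.1 0 1 = -1 := rfl
    have w10 : W.1 1 0 = 1 := rfl
    have w11 : W.1 1 1 = 0 := rfl
    have e01 := congrFun (congrFun m 0) 1
    have e10 := congrFun (congrFun m 1) 0
    have e11 := congrFun (congrFun m 1) 1
    rw [Matrix.mul_apply, Matrix.mul_apply, Fin.sum_univ_two, Fin.sum_univ_two,
      w00, w01, w11, h3, h3'] at e01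
    rw [Matrix.mul_apply, Matrix.mul_apply, Fin.sum_univ_two, Fin.sum_univ_two,
      w00, w10, w11] at e10
    rw [Matrix.mul_apply, Matrix.mul_apply, Fin.sum_univ_two, Fin.sum_univ_two,
      w10, w01, w11, h3'] at e11
    refine ⟨by linarith, ?_, by linarith⟩
    have hc : (k d).1 1 0 = 0 := by linarith
    rw [hc] at e10
    linarith
  have hdet : ∀ d, (k d).1 0 0 * (k d).1 1 1 = 1 := by
    intro d
    have h1 := (k d).2
    rw [Matrix.det_fin_two, (hk d).2.2, zero_mul, sub_zero] at h1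
    exact h1
  have heq : ∀ d, (k d).1 1 1 = (k d).1 0 0 := by
    intro d
    obtain ⟨-, a1, b1⟩ := hent d
    obtain ⟨-, a2, b2⟩ := hent (T.sg d)
    obtain ⟨-, a3, b3⟩ := hent (T.sg (T.sg d))
    rw [T.sg3] at a3 b3
    -- k d 11 = k (sg d) 00 = k (sg sg d) 11 = k d 00
    rw [a1, ← b2, a3]
  have hsq : ∀ d, (k d).1 0 0 * (k d).1 0 0 = 1 := by
    intro d
    have h1 := hdet d
    rw [heq d] at h1
    exact h1
  have hp1 : p.1 = q.1 := by
    funext d
    have h2 := (hk d).2.1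
    have m : (E (p.1 d)).1 * (k (T.io d)).1 = (k d).1 * (E (q.1 d)).1 := by
      have : (E (p.1 d) * k (T.io d)).1 = (k d * E (q.1 d)).1 := by rw [h2]
      exact this
    have e01 := congrFun (congrFun m 0) 1
    have p00 : (E (p.1 d)).1 0 0 = 0 := rfl
    have p01 : (E (p.1 d)).1 0 1 = exp (p.1 d / 2) := rfl
    have q01 : (E (q.1 d)).1 0 1 = exp (q.1 d / 2) := rfl
    rw [Matrix.mul_apply, Matrix.mul_apply, Fin.sum_univ_two, Fin.sum_univ_two, p00, p01, q01,
      (hk d).2.2, heq (T.io d)] at e01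
    have e : (k (T.io d)).1 0 0 * exp (p.1 d / 2) = (k d).1 0 0 * exp (q.1 d / 2) := by
      linarith
    exact sq_exp_eq (hsq _) (hsq _) e
  have hp2 : p.2 = q.2 := by
    have m : (P.J p).1 * (k P.v).1 = (k P.u).1 * (P.J q).1 := by
      have : (P.J p * k P.v).1 = (k P.u * P.J q).1 := by rw [hJ]
      exact this
    have e00 := congrFun (congrFun m 0) 0
    have p00 : (P.J p).1 0 0 = exp (p.2 / 2) := rfl
    have p01 : (P.J p).1 0 1 = 0 := rfl
    have q00 : (P.J q).1 0 0 = exp (q.2 / 2) := rfl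
    rw [Matrix.mul_apply, Matrix.mul_apply, Fin.sum_univ_two, Fin.sum_univ_two, p00, p01, q00,
      (hk P.u).2.2] at e00
    have e : (k P.v).1 0 0 * exp (p.2 / 2) = (k P.u).1 0 0 * exp (q.2 / 2) := by
      linarith
    exact sq_exp_eq (hsq _) (hsq _) e
  exact Prod.ext hp1 hp2

end Run7.h55.DG
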